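import Pool.Agent.H26.BasicSeq

set_option autoImplicit false

namespace Pool.Agent.Results.MP_68f07c_an.Counterexample

open Filter Topology
open scoped BoundedContinuousFunction

def IsBasic (𝕜 : Type) [RCLike 𝕜] {Z : Type} [NormedAddCommGroup Z] [NormedSpace 𝕜 Z]
    (u : ℕ → Z) : Prop :=
  ∀ y ∈ (Submodule.span 𝕜 (Set.range u)).topologicalClosure,
    ∃! a : ℕ → 𝕜, Tendsto (fun N => ∑ i ∈ Finset.range N, a i • u i) atTop (𝓝 y)

def Equivalent (𝕜 : Type) [RCLike 𝕜] {Z W : Type} [NormedAddCommGroup Z] [NormedSpace 𝕜 Z]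
    [NormedAddCommGroup W] [NormedSpace 𝕜 W] (u : ℕ → Z) (v : ℕ → W) : Prop :=
  ∀ a : ℕ → 𝕜, (∃ s, Tendsto (fun N => ∑ i ∈ Finset.range N, a i • u i) atTop (𝓝 s)) ↔
    (∃ s, Tendsto (fun N => ∑ i ∈ Finset.range N, a i • v i) atTop (𝓝 s))

def preAnn {𝕜 : Type} [RCLike 𝕜] {E : Type} [NormedAddCommGroup E] [NormedSpace 𝕜 E]
    (A : Submodule 𝕜 (StrongDual 𝕜 E)) : Submodule 𝕜 E where
  carrier := {z | ∀ g ∈ A, g z = 0}
  add_mem' := fun {a b} ha hb g hg => by rw [map_add, ha g hg, hb g hg, add_zero]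
  zero_mem' := fun g _ => map_zero g
  smul_mem' := fun c z hz g hg => by rw [map_smul, hz g hg, smul_zero]

variable (𝕜 : Type) [RCLike 𝕜]

abbrev E := (ℕ →ᵇ 𝕜) × (ℚ →ᵇ 𝕜)

noncomputable def t : ℕ ≃ ℚ := (Denumerable.eqv ℚ).symm

noncomputable def e (n : ℕ) : ℕ →ᵇ 𝕜 :=
  BoundedContinuousFunction.ofNormedAddCommGroupDiscrete (fun k => if k = n then 1 else 0) 1
    (fun k => by split_ifs <;> simp)

lemma e_apply (n k : ℕ) : e 𝕜 n k = if k = n then 1 else 0 := rfl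

noncomputable def x (n : ℕ) : E 𝕜 := (e 𝕜 n, 0)

noncomputable def f (n : ℕ) : StrongDual 𝕜 (E 𝕜) :=
  (BoundedContinuousFunction.evalCLM 𝕜 n).comp (ContinuousLinearMap.fst 𝕜 _ _) +
    (2 : 𝕜) ^ n • (BoundedContinuousFunction.evalCLM 𝕜 (t n)).comp (ContinuousLinearMap.snd 𝕜 _ _)

lemma f_apply (n : ℕ) (z : E 𝕜) : f 𝕜 n z = z.1 n + 2 ^ n * z.2 (t n) := by
  simp [f]

lemma sum_e (a : ℕ → 𝕜) (n k : ℕ) :
    (∑ i ∈ Finset.range n, a i • x 𝕜 i).1 k = if k < n then a k else 0 := by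
  simp [x, Prod.fst_sum, e_apply, Finset.sum_apply]

lemma sum_snd (a : ℕ → 𝕜) (n : ℕ) : (∑ i ∈ Finset.range n, a i • x 𝕜 i).2 = 0 := by
  simp [x, Prod.snd_sum]

lemma x_basic : IsBasic 𝕜 (x 𝕜) := by
  refine Pool.Agent.H26.BasicSeq.grunblum _ (fun n h => ?_) 1 (fun a n m hnm => ?_)
  · have := congrArg (fun z : E 𝕜 => z.1 n) h
    simp [x, e_apply] at this
  · rw [one_mul, Prod.norm_def, Prod.norm_def, sum_snd, sum_snd]
    refine max_le_max ?_ le_rfl
    refine (BoundedContinuousFunction.norm_le (norm_nonneg _)).2 fun k => ?_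
    rw [sum_e]
    split_ifs with h
    · have := (∑ i ∈ Finset.range m, a i • x 𝕜 i).1.norm_coe_le_norm k
      rwa [sum_e, if_pos (by omega)] at this
    · simp

lemma upper (a : ℕ → 𝕜) (n : ℕ) :
    ‖∑ i ∈ Finset.range n, a i • f 𝕜 i‖ ≤ 2 * ∑ i ∈ Finset.range n, 2 ^ i * ‖a i‖ := by
  rw [Finset.mul_sum]
  refine (norm_sum_le _ _).trans (Finset.sum_le_sum fun i _ => ?_)
  have h : ‖f 𝕜 i‖ ≤ 2 * 2 ^ i := by
    refine ContinuousLinearMap.opNorm_le_bound _ (by positivity) fun z => ?_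
    rw [f_apply]
    have h1 := (z.1.norm_coe_le_norm i).trans (norm_fst_le z)
    have h2 := (z.2.norm_coe_le_norm (t i)).trans (norm_snd_le z)
    have h3 : (1 : ℝ) ≤ 2 ^ i := one_le_pow₀ (by norm_num)
    have h4 := norm_add_le (z.1 i) (2 ^ i * z.2 (t i))
    rw [norm_mul, norm_pow, RCLike.norm_two] at h4
    nlinarith [norm_nonneg z, mul_le_mul_of_nonneg_left h2 (by positivity : (0 : ℝ) ≤ 2 ^ i)]
  rw [norm_smul]
  nlinarith [norm_nonneg (a i)]

lemma interp (s : ℕ → 𝕜) (hs : ∀ i, ‖s i‖ ≤ 1) (n : ℕ) :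
    ∃ y : ℚ →ᵇ 𝕜, ‖y‖ ≤ 1 ∧ ∀ i < n, y (t i) = s i := by
  let S : Set ℚ := t '' Set.Iio n
  have hS : S.Finite := (Set.finite_Iio n).image _
  have : Finite S := hS
  let g : S →ᵇ 𝕜 := BoundedContinuousFunction.ofNormedAddCommGroupDiscrete
    (fun q => s (t.symm q)) 1 (fun q => hs _)
  obtain ⟨y, hy, hy2⟩ := BoundedContinuousFunction.exists_norm_eq_domRestrict_eq hS.isClosed 𝕜 g
  refine ⟨y, hy.le.trans ((BoundedContinuousFunction.norm_le zero_le_one).2 fun q => hs _),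
    fun i hi => ?_⟩
  have := congrArg (fun u : S →ᵇ 𝕜 => u ⟨t i, i, hi, rfl⟩) hy2
  simpa [g] using this

lemma lower (a : ℕ → 𝕜) (n : ℕ) :
    ∑ i ∈ Finset.range n, 2 ^ i * ‖a i‖ ≤ ‖∑ i ∈ Finset.range n, a i • f 𝕜 i‖ := by
  have hs : ∀ i, ∃ s : 𝕜, ‖s‖ ≤ 1 ∧ a i * s = (‖a i‖ : 𝕜) := by
    intro i
    by_cases h : a i = 0
    · exact ⟨0, by simp, by simp [h]⟩
    · refine ⟨(‖a i‖ : 𝕜) / a i, ?_, by field_simp⟩
      rw [norm_div, RCLike.norm_ofReal, abs_norm, div_self (norm_ne_zero_iff.2 h)]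
  choose s hs1 hs2 using hs
  obtain ⟨y, hy, hy2⟩ := interp 𝕜 s hs1 n
  have h1 := (∑ i ∈ Finset.range n, a i • f 𝕜 i).le_opNorm (0, y)
  have h2 : (∑ i ∈ Finset.range n, a i • f 𝕜 i) (0, y) =
      ((∑ i ∈ Finset.range n, 2 ^ i * ‖a i‖ : ℝ) : 𝕜) := by
    rw [_root_.sum_apply, RCLike.ofReal_sum]
    refine Finset.sum_congr rfl fun i hi => ?_
    rw [_root_.smul_apply, f_apply, hy2 i (Finset.mem_range.1 hi), RCLike.ofReal_mul, ← hs2 i,
      RCLike.ofReal_pow, RCLike.ofReal_ofNat]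
    simp
    ring
  have h3 : ‖((0, y) : E 𝕜)‖ ≤ 1 := by simpa [Prod.norm_def] using hy
  rw [h2, RCLike.norm_ofReal] at h1
  nlinarith [le_abs_self (∑ i ∈ Finset.range n, 2 ^ i * ‖a i‖),
    norm_nonneg (∑ i ∈ Finset.range n, a i • f 𝕜 i)]

lemma f_basic : IsBasic 𝕜 (f 𝕜) := by
  refine Pool.Agent.H26.BasicSeq.grunblum _ (fun n h => ?_) 2 (fun a n m hnm => ?_)
  · have := f_apply 𝕜 n (x 𝕜 n)
    simp [h, x, e_apply] at this
  · refine (upper 𝕜 a n).trans (mul_le_mul_of_nonneg_left (le_trans ?_ (lower 𝕜 a m)) zero_le_two)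
    exact Finset.sum_le_sum_of_subset_of_nonneg (Finset.range_mono hnm) fun i _ _ => by positivity

lemma total (z : E 𝕜) (hz : ∀ n, f 𝕜 n z = 0) : z = 0 := by
  have h1 : Tendsto (fun n => z.2 (t n)) atTop (𝓝 0) := by
    refine squeeze_zero_norm (a := fun n => ‖z.1‖ * (1 / 2) ^ n) (fun n => ?_) ?_
    · have h := hz n
      rw [f_apply, add_eq_zero_iff_eq_neg] at h
      have h2 := z.1.norm_coe_le_norm n
      rw [h, norm_neg, norm_mul, norm_pow, RCLike.norm_two] at h2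
      rw [one_div, inv_pow, ← div_eq_mul_inv, le_div_iff₀ (by positivity)]
      linarith
    · simpa using (tendsto_pow_atTop_nhds_zero_of_lt_one (r := (1 / 2 : ℝ)) (by norm_num)
        (by norm_num)).const_mul ‖z.1‖
  have h2 : z.2 = 0 := by
    ext q
    have hi : Function.Injective fun k : ℕ => t.symm (q + 1 / ((k : ℚ) + 1)) := by
      intro k l h
      have := t.symm.injective h
      simpa using this
    have h3 := h1.comp hi.nat_tendsto_atTop
    have h4 : Tendsto (fun k : ℕ => q + 1 / ((k : ℚ) + 1)) atTop (𝓝 q) := by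
      simpa using (tendsto_one_div_add_atTop_nhds_zero_nat (𝕜 := ℚ)).const_add q
    have h5 := (z.2.continuous.tendsto q).comp h4
    refine tendsto_nhds_unique h5 (h3.congr fun k => ?_)
    simp
  refine Prod.ext ?_ h2
  ext n
  have := hz n
  simpa [f_apply, h2] using this

lemma geo {W : Type} [NormedAddCommGroup W] [NormedSpace 𝕜 W] (φ : ℕ → StrongDual 𝕜 W)
    (h : ∀ n, ‖φ n‖ ≤ 1) : Summable fun n : ℕ => ((1 / 2 : 𝕜) ^ n) • φ n := by
  refine Summable.of_norm_bounded (g := fun n => (1 / 2 : ℝ) ^ n)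
    summable_geometric_two fun n => ?_
  rw [norm_smul, norm_pow, norm_div, norm_one, RCLike.norm_two]
  exact mul_le_of_le_one_right (by positivity) (h n)

theorem result (𝕜 : Type) [RCLike 𝕜] :
    ∃ (E : Type) (_ : NormedAddCommGroup E) (_ : NormedSpace 𝕜 E) (_ : CompleteSpace E)
      (x : ℕ → E) (f : ℕ → StrongDual 𝕜 E),
      (∀ i j, f i (x j) = if i = j then 1 else 0) ∧ IsBasic 𝕜 x ∧ IsBasic 𝕜 f ∧
      IsClosed (((Submodule.span 𝕜 (Set.range x)).topologicalClosure ⊔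
        preAnn (Submodule.span 𝕜 (Set.range f)).topologicalClosure : Submodule 𝕜 E) : Set E) ∧
      ¬ Equivalent 𝕜 f
        (fun n => (f n).comp (Submodule.span 𝕜 (Set.range x)).topologicalClosure.subtypeL) := by
  refine ⟨E 𝕜, inferInstance, inferInstance, inferInstance, x 𝕜, f 𝕜, fun i j => ?_, x_basic 𝕜,
    f_basic 𝕜, ?_, fun h => ?_⟩
  · simp [f_apply, x, e_apply]
  · have : preAnn (Submodule.span 𝕜 (Set.range (f 𝕜))).topologicalClosure = ⊥ := by
      refine (Submodule.eq_bot_iff _).2 fun z hz => total 𝕜 z fun n => hz _ ?_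
      exact Submodule.le_topologicalClosure _ (Submodule.subset_span ⟨n, rfl⟩)
    rw [this, sup_bot_eq]
    exact Submodule.isClosed_topologicalClosure _
  · have hX : ∀ z ∈ (Submodule.span 𝕜 (Set.range (x 𝕜))).topologicalClosure, z.2 = 0 := by
      intro z hz
      have : (Submodule.span 𝕜 (Set.range (x 𝕜))).topologicalClosure ≤
          (ContinuousLinearMap.snd 𝕜 _ _).ker := by
        refine Submodule.topologicalClosure_minimal _ (Submodule.span_le.2 ?_)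
          (ContinuousLinearMap.isClosed_ker _)
        rintro _ ⟨n, rfl⟩
        simp [x]
      simpa using this hz
    have h1 : Summable fun n : ℕ => ((1 / 2 : 𝕜) ^ n) • (f 𝕜 n).comp
        (Submodule.span 𝕜 (Set.range (x 𝕜))).topologicalClosure.subtypeL := by
      refine geo 𝕜 _ fun n => ContinuousLinearMap.opNorm_le_bound _ zero_le_one fun z => ?_
      have h3 := (z.1.1.norm_coe_le_norm n).trans (norm_fst_le z.1)
      simpa [f_apply, hX z.1 z.2] using h3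
    obtain ⟨s, hs⟩ := (h fun n => (1 / 2 : 𝕜) ^ n).2 ⟨_, h1.hasSum.tendsto_sum_nat⟩
    have h4 : ∀ n : ℕ, (n : ℝ) ≤ ‖∑ i ∈ Finset.range n, (1 / 2 : 𝕜) ^ i • f 𝕜 i‖ := by
      intro n
      refine le_trans (le_of_eq ?_) (lower 𝕜 _ n)
      simp
    exact not_tendsto_atTop_of_tendsto_nhds hs.norm
      (tendsto_atTop_mono h4 tendsto_natCast_atTop_atTop)

end Pool.Agent.Results.MP_68f07c_an.Counterexample
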